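import Pool.Agent.TH774.TD.Slow

set_option autoImplicit false

namespace Pool.Agent.TH774.TD

open Pool.Agent.Helper227 Pool.Agent.H685R3
open Encodable Filter Topology

/-- The distance to the nearest even integer. -/
noncomputable def dl (x : ℝ) : ℝ := |x - 2 * round (x / 2)|

theorem dl_nonneg (x : ℝ) : 0 ≤ dl x := abs_nonneg _

theorem dl_le_int (x : ℝ) (k : ℤ) : dl x ≤ |x - 2 * k| := by
  have h1 := round_le (x / 2) k
  have h2 : x - 2 * round (x / 2) = 2 * (x / 2 - round (x / 2)) := by ring
  have h3 : x - 2 * k = 2 * (x / 2 - k) := by ring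
  rw [dl, h2, h3, abs_mul, abs_mul]
  exact mul_le_mul_of_nonneg_left h1 (abs_nonneg _)

theorem dl_le {x : ℝ} (hx : 0 ≤ x) : dl x ≤ x := by
  have h1 := dl_le_int x 0
  simpa [abs_of_nonneg hx] using h1

theorem dl_le_one (x : ℝ) : dl x ≤ 1 := by
  have h1 := abs_sub_round (x / 2)
  have h2 : x - 2 * round (x / 2) = 2 * (x / 2 - round (x / 2)) := by ring
  rw [dl, h2, abs_mul]
  rw [abs_of_pos (show (0:ℝ) < 2 by norm_num)]
  linarith

theorem dl_sub_le (x y : ℝ) : dl x - dl y ≤ |x - y| := by
  have h1 := dl_le_int x (round (y / 2))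
  have h2 : |x - 2 * round (y / 2)| ≤ |x - y| + |y - 2 * round (y / 2)| := by
    have h3 : x - 2 * round (y / 2) = (x - y) + (y - 2 * round (y / 2)) := by ring
    rw [h3]
    exact abs_add_le _ _
  have h3 : dl y = |y - 2 * round (y / 2)| := rfl
  linarith

theorem cos_dl (x : ℝ) : Real.cos (Real.pi * dl x) = Real.cos (Real.pi * x) := by
  have h1 : Real.pi * dl x = |Real.pi * x - (round (x / 2) : ℤ) * (2 * Real.pi)| := by
    rw [dl, ← abs_of_pos Real.pi_pos, ← abs_mul, abs_of_pos Real.pi_pos]
    congr 1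
    ring
  rw [h1, Real.cos_abs, Real.cos_sub_int_mul_two_pi]

/-- The basic wave. -/
noncomputable def wv (x : ℝ) : ℝ := Real.sin (Real.pi * x) ^ 2

theorem wv_mem (x : ℝ) : wv x ∈ Set.Icc (0 : ℝ) 1 := ⟨sq_nonneg _, Real.sin_sq_le_one _⟩

theorem wv_eq (x : ℝ) : wv x = (1 - Real.cos (2 * (Real.pi * x))) / 2 := by
  rw [wv, Real.sin_sq_eq_half_sub]
  ring

theorem wv_sub_le (x y : ℝ) : |wv x - wv y| ≤ 4 * |x - y| := by
  have h1 := Real.abs_cos_sub_cos_le (2 * (Real.pi * y)) (2 * (Real.pi * x))
  have h2 : wv x - wv y = (Real.cos (2 * (Real.pi * y)) - Real.cos (2 * (Real.pi * x))) / 2 := by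
    rw [wv_eq, wv_eq]
    ring
  have h3 : 2 * (Real.pi * y) - 2 * (Real.pi * x) = (2 * Real.pi) * (y - x) := by ring
  have h4 : |(2 : ℝ) * Real.pi| = 2 * Real.pi := abs_of_pos (by positivity)
  rw [h2, abs_div, abs_of_pos (show (0:ℝ) < 2 by norm_num)]
  rw [h3, abs_mul, h4, abs_sub_comm y x] at h1
  have h5 := Real.pi_lt_four
  have h6 := abs_nonneg (x - y)
  nlinarith

theorem nice_id : Nice fun x => x where
  nonneg := fun _ hx => hx
  le := fun _ _ => le_rfl
  mono := fun _ _ _ h => h
  lip := fun _ _ _ _ => le_rfl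
  top := tendsto_id

theorem nice_two : Nice fun x => (x + dl x) / 2 where
  nonneg := fun x hx => by have := dl_nonneg x; positivity
  le := fun x hx => by have := dl_le hx; linarith
  mono := fun x y _ h => by
    have h1 := dl_sub_le x y
    rw [abs_of_nonpos (by linarith)] at h1
    linarith
  lip := fun x y _ h => by
    have h1 := dl_sub_le y x
    rw [abs_of_nonneg (by linarith)] at h1
    linarith
  top := by
    refine tendsto_atTop_mono (f := fun x : ℝ => x / 2) (fun x => ?_)
      (tendsto_id.atTop_div_const (by norm_num))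
    have := dl_nonneg x
    linarith

theorem nice_three : Nice fun x => (x - dl x) / 2 where
  nonneg := fun x hx => by have := dl_le hx; linarith
  le := fun x hx => by have := dl_nonneg x; linarith
  mono := fun x y _ h => by
    have h1 := dl_sub_le y x
    rw [abs_of_nonneg (by linarith)] at h1
    linarith
  lip := fun x y _ h => by
    have h1 := dl_sub_le x y
    rw [abs_of_nonpos (by linarith)] at h1
    linarith
  top := by
    refine tendsto_atTop_mono (f := fun x : ℝ => (x + (-1)) / 2) (fun x => ?_)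
      ((tendsto_atTop_add_const_right _ _ tendsto_id).atTop_div_const (by norm_num))
    have := dl_le_one x
    linarith

theorem nice_shift {c : ℝ} (hc : 0 ≤ c) : Nice fun x => max (x - c) 0 where
  nonneg := fun x _ => le_max_right _ _
  le := fun x hx => max_le (by linarith) hx
  mono := fun x y _ h => max_le_max (by linarith) le_rfl
  lip := fun x y _ h => by
    rcases le_total (y - c) 0 with h1 | h1
    · rw [max_eq_right h1, max_eq_right (show x - c ≤ 0 by linarith)]
      linarith
    · rw [max_eq_left h1]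
      have := le_max_left (x - c) 0
      linarith
  top := by
    refine tendsto_atTop_mono (f := fun x : ℝ => x + (-c)) (fun x => ?_)
      (tendsto_atTop_add_const_right _ _ tendsto_id)
    have := le_max_left (x - c) 0
    linarith

theorem wv_split (x : ℝ) : wv ((x + dl x) / 2) + wv ((x - dl x) / 2) = wv x := by
  have h1 : Real.cos (2 * (Real.pi * ((x + dl x) / 2))) + Real.cos (2 * (Real.pi * ((x - dl x) / 2)))
      = 2 * Real.cos (Real.pi * x) * Real.cos (Real.pi * dl x) := by
    have h2 : 2 * (Real.pi * ((x + dl x) / 2)) = Real.pi * x + Real.pi * dl x := by ring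
    have h3 : 2 * (Real.pi * ((x - dl x) / 2)) = Real.pi * x - Real.pi * dl x := by ring
    rw [h2, h3, Real.cos_add, Real.cos_sub]
    ring
  rw [cos_dl] at h1
  rw [wv_eq, wv_eq ((x - dl x) / 2), wv]
  have h2 := Real.sin_sq_add_cos_sq (Real.pi * x)
  nlinarith

theorem wv_shift {x : ℝ} (hx : 1 / 2 ≤ x) : wv x + wv (max (x - 1 / 2) 0) = 1 := by
  rw [max_eq_left (by linarith), wv, wv]
  have h1 : Real.pi * (x - 1 / 2) = Real.pi * x - Real.pi / 2 := by ring
  rw [h1, Real.sin_sub_pi_div_two, neg_sq]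
  exact Real.sin_sq_add_cos_sq _

/-- The slowly oscillating weights attached to a real. -/
noncomputable def rho (x : ℕ → Bool) (m : ℕ) : ℝ := wv (sq x m)

theorem measurable_rho : Measurable rho := by
  refine measurable_pi_lambda _ fun m => ?_
  have h1 : Measurable wv := by
    unfold wv
    exact ((Real.measurable_sin.comp (measurable_const.mul measurable_id))).pow_const 2
  exact h1.comp (measurable_sq m)

theorem rho_close_of {a b : ℕ → ℝ} (h : Tendsto (fun m => a m - b m) atTop (𝓝 0)) :
    Tendsto (fun m => wv (a m) - wv (b m)) atTop (𝓝 0) := by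
  have h1 : Tendsto (fun m => 4 * |a m - b m|) atTop (𝓝 0) := by
    have h2 := (h.abs).const_mul 4
    simpa using h2
  exact squeeze_zero_norm (fun m => by rw [Real.norm_eq_abs]; exact wv_sub_le _ _) h1

theorem rho_close {x y : ℕ → Bool} (h1 : TLe x y) (h2 : TLe y x) :
    Tendsto (fun m => rho x m - rho y m) atTop (𝓝 0) := rho_close_of (sq_close h1 h2)

/-- Partitions of unity inside every cone. -/
theorem partitions (z : ℕ → Bool) : ∃ y₁ y₂ y₃ y₄, TLe z y₁ ∧ TLe z y₂ ∧ TLe z y₃ ∧ TLe z y₄ ∧
    Tendsto (fun m => rho y₁ m - (rho y₂ m + rho y₃ m)) atTop (𝓝 0) ∧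
    Tendsto (fun m => 1 - (rho y₁ m + rho y₄ m)) atTop (𝓝 0) := by
  obtain ⟨s, hs0, hs, hw⟩ := walk_sq z
  obtain ⟨y₁, h1, e1⟩ := hw _ nice_id
  obtain ⟨y₂, h2, e2⟩ := hw _ nice_two
  obtain ⟨y₃, h3, e3⟩ := hw _ nice_three
  obtain ⟨y₄, h4, e4⟩ := hw _ (nice_shift (c := 1 / 2) (by norm_num))
  refine ⟨y₁, y₂, y₃, y₄, h1, h2, h3, h4, ?_, ?_⟩
  · have := (rho_close_of e1).sub ((rho_close_of e2).add (rho_close_of e3))
    simp only [add_zero, sub_zero] at this
    refine this.congr fun m => ?_
    have h5 := wv_split (s m)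
    unfold rho
    linarith
  · have := ((rho_close_of e1).add (rho_close_of e4)).neg
    simp only [add_zero, neg_zero] at this
    refine this.congr' ?_
    filter_upwards [hs.eventually_ge_atTop (1 / 2)] with m hm
    have h5 := wv_shift hm
    unfold rho
    linarith

end Pool.Agent.TH774.TD
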