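import Pool.Agent.TH774.TD.Walk

set_option autoImplicit false

namespace Pool.Agent.TH774.TD

open Pool.Agent.Helper227 Pool.Agent.H685R3
open Encodable Filter Topology

/-- Nondecreasing, 1-Lipschitz, unbounded functions below the identity. -/
structure Nice (θ : ℝ → ℝ) : Prop where
  nonneg : ∀ x, 0 ≤ x → 0 ≤ θ x
  le : ∀ x, 0 ≤ x → θ x ≤ x
  mono : ∀ x y, 0 ≤ x → x ≤ y → θ x ≤ θ y
  lip : ∀ x y, 0 ≤ x → x ≤ y → θ y - θ x ≤ y - x
  top : Tendsto θ atTop atTop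

/-- The discretization. -/
noncomputable def disc (θ : ℝ → ℝ) (n : ℕ) : ℕ := ⌊(θ (√n)) ^ 2⌋₊

theorem tendsto_sqrt_nat : Tendsto (fun n : ℕ => √(n : ℝ)) atTop atTop :=
  Real.tendsto_sqrt_atTop.comp tendsto_natCast_atTop_atTop

theorem lazy_disc {θ : ℝ → ℝ} (h : Nice θ) : Lazy (disc θ) where
  zero := by
    have h1 := h.nonneg 0 le_rfl
    have h2 := h.le 0 le_rfl
    have h3 : θ 0 = 0 := le_antisymm h2 h1
    simp [disc, h3]
  mono := by
    intro a b hab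
    refine Nat.floor_le_floor ?_
    have h1 : √(a : ℝ) ≤ √(b : ℝ) := Real.sqrt_le_sqrt (by exact_mod_cast hab)
    exact pow_le_pow_left₀ (h.nonneg _ (Real.sqrt_nonneg _)) (h.mono _ _ (Real.sqrt_nonneg _) h1) 2
  step := by
    intro n
    have h1 : √(n : ℝ) ≤ √((n + 1 : ℕ) : ℝ) := Real.sqrt_le_sqrt (by push_cast; linarith)
    have h2 := h.lip _ _ (Real.sqrt_nonneg _) h1
    have h3 := h.mono _ _ (Real.sqrt_nonneg _) h1
    have h4 := h.le _ (Real.sqrt_nonneg (n : ℝ))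
    have h5 := h.le _ (Real.sqrt_nonneg ((n + 1 : ℕ) : ℝ))
    have h6 := h.nonneg _ (Real.sqrt_nonneg (n : ℝ))
    have h7 : √(n : ℝ) ^ 2 = n := Real.sq_sqrt (Nat.cast_nonneg n)
    have h8 : √((n + 1 : ℕ) : ℝ) ^ 2 = n + 1 := by
      rw [Real.sq_sqrt (Nat.cast_nonneg _)]
      push_cast
      ring
    have h9 : θ (√((n + 1 : ℕ) : ℝ)) ^ 2 ≤ θ (√(n : ℝ)) ^ 2 + 1 := by
      nlinarith
    calc disc θ (n + 1) ≤ ⌊θ (√(n : ℝ)) ^ 2 + 1⌋₊ := Nat.floor_le_floor h9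
      _ = disc θ n + 1 := Nat.floor_add_one (by positivity)
  top := by
    have h1 : Tendsto (fun n : ℕ => θ (√(n : ℝ))) atTop atTop := h.top.comp tendsto_sqrt_nat
    have h2 : Tendsto (fun n : ℕ => θ (√(n : ℝ)) ^ 2) atTop atTop :=
      (tendsto_pow_atTop (by norm_num)).comp h1
    exact tendsto_nat_floor_atTop.comp h2

theorem sqrt_disc {θ : ℝ → ℝ} (h : Nice θ) :
    Tendsto (fun n : ℕ => √(disc θ n : ℝ) - θ (√(n : ℝ))) atTop (𝓝 0) := by
  have h1 : Tendsto (fun n : ℕ => θ (√(n : ℝ))) atTop atTop := h.top.comp tendsto_sqrt_nat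
  have h2 : Tendsto (fun n : ℕ => (θ (√(n : ℝ)))⁻¹) atTop (𝓝 0) := tendsto_inv_atTop_zero.comp h1
  refine squeeze_zero_norm' ?_ h2
  filter_upwards [h1.eventually_ge_atTop 1] with n hn
  have h3 : (disc θ n : ℝ) ≤ θ (√(n : ℝ)) ^ 2 := Nat.floor_le (by positivity)
  have h4 : θ (√(n : ℝ)) ^ 2 < disc θ n + 1 := Nat.lt_floor_add_one _
  have h5 : √(disc θ n : ℝ) ≤ θ (√(n : ℝ)) := by
    rw [← Real.sqrt_sq (show (0:ℝ) ≤ θ (√(n : ℝ)) by linarith)]
    exact Real.sqrt_le_sqrt h3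
  have h6 : √(disc θ n : ℝ) ^ 2 = disc θ n := Real.sq_sqrt (Nat.cast_nonneg _)
  have h7 := Real.sqrt_nonneg (disc θ n : ℝ)
  rw [Real.norm_eq_abs, abs_of_nonpos (by linarith), inv_eq_one_div, le_div_iff₀ (by linarith)]
  nlinarith

theorem sqrt_close {a b : ℕ → ℕ} (ha : Tendsto a atTop atTop)
    (h : ∀ᶠ m in atTop, a m ≤ b m + 1 ∧ b m ≤ a m + 1) :
    Tendsto (fun m => √(a m : ℝ) - √(b m : ℝ)) atTop (𝓝 0) := by
  have h1 : Tendsto (fun m => √(a m : ℝ)) atTop atTop := tendsto_sqrt_nat.comp ha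
  have h2 : Tendsto (fun m => (√(a m : ℝ))⁻¹) atTop (𝓝 0) := tendsto_inv_atTop_zero.comp h1
  refine squeeze_zero_norm' ?_ h2
  filter_upwards [h1.eventually_ge_atTop 1, h] with m hm hm'
  have h3 : √(a m : ℝ) ^ 2 = a m := Real.sq_sqrt (Nat.cast_nonneg _)
  have h4 : √(b m : ℝ) ^ 2 = b m := Real.sq_sqrt (Nat.cast_nonneg _)
  have h5 := Real.sqrt_nonneg (b m : ℝ)
  have h6 : (a m : ℝ) ≤ b m + 1 := by exact_mod_cast hm'.1
  have h7 : (b m : ℝ) ≤ a m + 1 := by exact_mod_cast hm'.2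
  rw [Real.norm_eq_abs, inv_eq_one_div, le_div_iff₀ (by linarith)]
  have h8 : |√(a m : ℝ) - √(b m : ℝ)| * (√(a m : ℝ) + √(b m : ℝ)) ≤ 1 := by
    have h9 : |√(a m : ℝ) - √(b m : ℝ)| * |√(a m : ℝ) + √(b m : ℝ)| ≤ 1 := by
      rw [← abs_mul, abs_le]
      constructor <;> nlinarith
    rwa [abs_of_nonneg (show 0 ≤ √(a m : ℝ) + √(b m : ℝ) by linarith)] at h9
  have h10 := abs_nonneg (√(a m : ℝ) - √(b m : ℝ))
  nlinarith

/-- The slow oscillation attached to a real. -/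
noncomputable def sq (x : ℕ → Bool) (m : ℕ) : ℝ := √(al x m : ℝ)

theorem sq_close {x y : ℕ → Bool} (h1 : TLe x y) (h2 : TLe y x) :
    Tendsto (fun m => sq x m - sq y m) atTop (𝓝 0) :=
  sqrt_close (tendsto_al x) ((al_le_al h2).and (al_le_al h1))

theorem tendsto_sq (x : ℕ → Bool) : Tendsto (sq x) atTop atTop :=
  tendsto_sqrt_nat.comp (tendsto_al x)

theorem measurable_al (m : ℕ) : Measurable fun x : ℕ → Bool => al x m := by
  refine measurable_of_Ioi fun k => ?_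
  have h1 : (fun x : ℕ → Bool => al x m) ⁻¹' Set.Ioi k = {x | g x k < m} := by
    ext x
    exact lt_lc (strictMono_g x)
  rw [h1]
  exact measurableSet_lt (measurable_g k) measurable_const

theorem measurable_sq (m : ℕ) : Measurable fun x : ℕ → Bool => sq x m :=
  (measurable_from_nat (f := fun n : ℕ => √(n : ℝ))).comp (measurable_al m)

/-- Every cone contains reals whose slow functions follow any nice function of one slow parameter. -/
theorem walk_sq (z : ℕ → Bool) : ∃ s : ℕ → ℝ, (∀ m, 0 ≤ s m) ∧ Tendsto s atTop atTop ∧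
    ∀ θ : ℝ → ℝ, Nice θ → ∃ y, TLe z y ∧ Tendsto (fun m => sq y m - θ (s m)) atTop (𝓝 0) := by
  obtain ⟨N, hN, hN'⟩ := walk z
  refine ⟨fun m => √(N m : ℝ), fun m => Real.sqrt_nonneg _, tendsto_sqrt_nat.comp hN,
    fun θ hθ => ?_⟩
  obtain ⟨y, hy, hy'⟩ := hN' _ (lazy_disc hθ)
  refine ⟨y, hy, ?_⟩
  have h1 := sqrt_close (tendsto_al y) hy'
  have h2 := (sqrt_disc hθ).comp hN
  have h3 := h1.add h2
  rw [add_zero] at h3
  refine h3.congr fun m => ?_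
  simp only [sq, Function.comp]
  ring

end Pool.Agent.TH774.TD
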