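import Pool.Agent.W885.TD.Cover

set_option autoImplicit false

namespace Pool.Agent.TH774.TD

open Pool.Agent.Helper227 Pool.Agent.H685R3
open Encodable Filter Topology

/-! ### Counting functions -/

/-- The number of `k` with `J k < n`, for increasing `J`. -/
noncomputable def lc (J : ℕ → ℕ) (n : ℕ) : ℕ := sInf {k | n ≤ J k}

theorem lt_lc {J : ℕ → ℕ} (hJ : StrictMono J) {k n : ℕ} : k < lc J n ↔ J k < n := by
  have hne : {k | n ≤ J k}.Nonempty := ⟨n, hJ.id_le n⟩
  constructor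
  · intro h
    have h1 := Nat.notMem_of_lt_sInf h
    simpa using h1
  · intro h
    by_contra hc
    push Not at hc
    have h1 : n ≤ J (lc J n) := Nat.sInf_mem hne
    have h2 := hJ.monotone hc
    omega

theorem lc_comp {t J : ℕ → ℕ} (ht : StrictMono t) (hJ : StrictMono J) (m : ℕ) :
    lc (t ∘ J) m = lc J (lc t m) := by
  have key : ∀ k, k < lc (t ∘ J) m ↔ k < lc J (lc t m) := fun k => by
    rw [lt_lc (ht.comp hJ), lt_lc hJ, lt_lc ht]
    rfl
  apply le_antisymm
  · by_contra hc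
    push Not at hc
    exact lt_irrefl _ ((key _).1 hc)
  · by_contra hc
    push Not at hc
    exact lt_irrefl _ ((key _).2 hc)

theorem tendsto_lc {J : ℕ → ℕ} (hJ : StrictMono J) : Tendsto (lc J) atTop atTop := by
  refine tendsto_atTop.2 fun k => ?_
  filter_upwards [eventually_gt_atTop (J k)] with n hn
  exact ((lt_lc hJ).2 hn).le

/-- Lazy walks: they start at zero, make steps of size at most one and are unbounded. -/
structure Lazy (a : ℕ → ℕ) : Prop where
  zero : a 0 = 0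
  mono : Monotone a
  step : ∀ n, a (n + 1) ≤ a n + 1
  top : Tendsto a atTop atTop

theorem Lazy.exists {a : ℕ → ℕ} (h : Lazy a) : ∃ J : ℕ → ℕ, StrictMono J ∧ ∀ n, lc J n = a n := by
  have hne : ∀ k, {n | k < a (n + 1)}.Nonempty := fun k => by
    obtain ⟨n, hn⟩ := ((tendsto_atTop.1 ((tendsto_add_atTop_iff_nat 1).2 h.top)) (k + 1)).exists
    exact ⟨n, hn⟩
  let J : ℕ → ℕ := fun k => sInf {n | k < a (n + 1)}
  have hJ : ∀ k, k < a (J k + 1) := fun k => Nat.sInf_mem (hne k)
  have hJ' : ∀ k n, k < a (n + 1) → J k ≤ n := fun k n hn => Nat.sInf_le hn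
  have hlt : ∀ k n, J k < n ↔ k < a n := by
    intro k n
    constructor
    · intro hn
      exact (hJ k).trans_le (h.mono hn)
    · intro hn
      cases n with
      | zero => rw [h.zero] at hn; omega
      | succ n => exact Nat.lt_succ_of_le (hJ' k n hn)
  have hmono : StrictMono J := strictMono_nat_of_lt_succ fun k => by
    rw [hlt]
    have h1 := hJ (k + 1)
    have h2 := h.step (J (k + 1))
    omega
  refine ⟨J, hmono, fun n => ?_⟩
  have key : ∀ k, k < lc J n ↔ k < a n := fun k => by rw [lt_lc hmono, hlt]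
  apply le_antisymm
  · by_contra hc
    push Not at hc
    exact lt_irrefl _ ((key _).1 hc)
  · by_contra hc
    push Not at hc
    exact lt_irrefl _ ((key _).2 hc)

/-! ### The clock as a counting function -/

theorem gset_mono_right (x : ℕ → Bool) {N M : ℕ} (h : N ≤ M) :
    Pool.Agent.W885.TD.gset x N ⊆ Pool.Agent.W885.TD.gset x M := by
  rintro c ⟨L, k, hL, hk, hc⟩
  exact ⟨L, k, by omega, by omega, hc⟩

theorem clk_mono_right (x : ℕ → Bool) {N M : ℕ} (h : N ≤ M) :
    Pool.Agent.W885.TD.clk x N ≤ Pool.Agent.W885.TD.clk x M :=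
  csSup_le' fun _ hc => le_csSup (Pool.Agent.W885.TD.finite_gset _ _).bddAbove
    (gset_mono_right x h hc)

/-- The increasing sequence attached to a real. -/
noncomputable def g (x : ℕ → Bool) (k : ℕ) : ℕ := Pool.Agent.W885.TD.G x k + k

theorem strictMono_g (x : ℕ → Bool) : StrictMono (g x) := strictMono_nat_of_lt_succ fun k => by
  have h1 : Pool.Agent.W885.TD.G x k ≤ Pool.Agent.W885.TD.G x (k + 1) :=
    clk_mono_right x (Pool.Agent.W885.TD.nn_strictMono.monotone (by omega))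
  change Pool.Agent.W885.TD.G x k + k < Pool.Agent.W885.TD.G x (k + 1) + (k + 1)
  omega

/-- The slow function attached to a real: its counting function. -/
noncomputable def al (x : ℕ → Bool) (m : ℕ) : ℕ := lc (g x) m

theorem tendsto_al (x : ℕ → Bool) : Tendsto (al x) atTop atTop := tendsto_lc (strictMono_g x)

theorem g_lt_g {x y : ℕ → Bool} (h : TLe x y) : ∃ i, ∀ k ≥ i, g x k < g y (k + 1) := by
  obtain ⟨i, hi⟩ := Pool.Agent.W885.TD.clk_le_clk h
  refine ⟨i, fun k hk => ?_⟩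
  have h1 := hi (3 * k) (by omega)
  have h2 : Pool.Agent.W885.TD.clk y (Pool.Agent.W885.TD.nn (3 * k + 1)) ≤
      Pool.Agent.W885.TD.clk y (Pool.Agent.W885.TD.nn (3 * (k + 1))) :=
    clk_mono_right y (Pool.Agent.W885.TD.nn_strictMono.monotone (by omega))
  change Pool.Agent.W885.TD.clk x (Pool.Agent.W885.TD.nn (3 * k)) + k <
    Pool.Agent.W885.TD.clk y (Pool.Agent.W885.TD.nn (3 * (k + 1))) + (k + 1)
  omega

theorem al_le_al {x y : ℕ → Bool} (h : TLe x y) : ∀ᶠ m in atTop, al y m ≤ al x m + 1 := by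
  obtain ⟨i, hi⟩ := g_lt_g h
  filter_upwards [(tendsto_atTop.1 (tendsto_al y)) (i + 2)] with m hm
  obtain ⟨k, hk⟩ : ∃ k, al y m = k + 2 := ⟨al y m - 2, by omega⟩
  have h1 : k + 1 < al y m := by omega
  have h2 := (lt_lc (strictMono_g y)).1 h1
  have h3 := hi k (by omega)
  have h4 : k < al x m := (lt_lc (strictMono_g x)).2 (by omega)
  omega

theorem control_g (z : ℕ → Bool) : ∃ h : ℕ → ℕ, ∀ τ : ℕ → ℕ, StrictMono τ →
    (∀ k, h (τ k) < τ (k + 1)) → ∃ y, TLe z y ∧
      ∀ᶠ m in atTop, al y m ≤ lc τ m + 1 ∧ lc τ m ≤ al y m + 1 := by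
  obtain ⟨h, hh⟩ := Pool.Agent.W885.TD.control z
  refine ⟨fun t => h t + t, fun τ hτ hτ' => ?_⟩
  obtain ⟨y, hy, hy'⟩ := hh τ hτ
  obtain ⟨k₀, hk₀⟩ := hy' y (TLe.refl y) (TLe.refl y)
  refine ⟨y, hy, ?_⟩
  have h1 : ∀ k ≥ k₀, τ k ≤ g y k ∧ g y k < τ (k + 1) := by
    intro k hk
    obtain ⟨h2, h3⟩ := hk₀ k hk
    have h4 := hτ' k
    have h5 : k ≤ τ k := hτ.id_le k
    simp only at h4
    unfold g
    omega
  filter_upwards [(tendsto_atTop.1 (tendsto_al y)) (k₀ + 2),
    (tendsto_atTop.1 (tendsto_lc hτ)) (k₀ + 2)] with m h2 h3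
  constructor
  · have h4 : al y m - 1 < al y m := by omega
    have h5 := (lt_lc (strictMono_g y)).1 h4
    have h6 := h1 (al y m - 1) (by omega)
    have h7 := (lt_lc hτ (n := m) (k := al y m - 1)).2 (by omega)
    omega
  · have h4 : lc τ m - 1 < lc τ m := by omega
    have h5 := (lt_lc hτ).1 h4
    obtain ⟨k, hk⟩ : ∃ k, lc τ m = k + 2 := ⟨lc τ m - 2, by omega⟩
    have h6 := h1 k (by omega)
    have h7 : lc τ m - 1 = k + 1 := by omega
    rw [h7] at h5
    have h8 : k < al y m := (lt_lc (strictMono_g y)).2 (by omega)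
    omega

/-- A sequence growing faster than `h`. -/
def fast (h : ℕ → ℕ) : ℕ → ℕ
  | 0 => 0
  | k + 1 => fast h k + 1 + (Finset.range (fast h k + 1)).sup h

theorem fast_spec (h : ℕ → ℕ) (k i : ℕ) (hi : i ≤ fast h k) : h i < fast h (k + 1) := by
  have h1 : h i ≤ (Finset.range (fast h k + 1)).sup h :=
    Finset.le_sup (f := h) (Finset.mem_range.2 (by omega))
  change h i < fast h k + 1 + _
  omega

theorem strictMono_fast (h : ℕ → ℕ) : StrictMono (fast h) := strictMono_nat_of_lt_succ fun k => by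
  change fast h k < fast h k + 1 + _
  omega

/-- The walk lemma. -/
theorem walk (z : ℕ → Bool) : ∃ N : ℕ → ℕ, Tendsto N atTop atTop ∧ ∀ a : ℕ → ℕ, Lazy a →
    ∃ y, TLe z y ∧ ∀ᶠ m in atTop, al y m ≤ a (N m) + 1 ∧ a (N m) ≤ al y m + 1 := by
  obtain ⟨h, hh⟩ := control_g z
  refine ⟨lc (fast h), tendsto_lc (strictMono_fast h), fun a ha => ?_⟩
  obtain ⟨J, hJ, hJa⟩ := ha.exists
  obtain ⟨y, hy, hy'⟩ := hh (fast h ∘ J) ((strictMono_fast h).comp hJ) fun k => by
    have h1 := fast_spec h (J k) (fast h (J k)) le_rfl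
    have h2 : J k + 1 ≤ J (k + 1) := hJ (Nat.lt_succ_self k)
    exact h1.trans_le ((strictMono_fast h).monotone h2)
  refine ⟨y, hy, ?_⟩
  filter_upwards [hy'] with m hm
  rw [lc_comp (strictMono_fast h) hJ, hJa] at hm
  exact hm

/-! ### Determined invariant properties are constant on a cone -/

theorem const_on_cone {S : ℕ → Set (ℕ → Bool)} (hS : ∀ n, TuringInvariant (S n))
    (hD : ∀ n, Determined (S n)) : ∃ z : ℕ → Bool, ∀ n,
      (∀ u, TLe z u → u ∈ S n) ∨ (∀ u, TLe z u → u ∉ S n) := by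
  have h1 : ∀ n, ∃ z : ℕ → Bool, (∀ u, TLe z u → u ∈ S n) ∨ (∀ u, TLe z u → u ∉ S n) := by
    intro n
    rcases hD n with h | h
    · obtain ⟨z, hz⟩ := cone_of_wins (b := 0) (by omega) (hS n) h
      exact ⟨z, Or.inl hz⟩
    · obtain ⟨z, hz⟩ := cone_of_wins (b := 1) (by omega)
        (Pool.Agent.W885.TD.compl_invariant (hS n)) h
      exact ⟨z, Or.inr hz⟩
  choose z hz using h1
  obtain ⟨w, hw⟩ := Pool.Agent.W885.TD.join_cone z
  refine ⟨w, fun n => ?_⟩
  rcases hz n with h | h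
  · exact Or.inl fun u hu => h u ((hw n).trans hu)
  · exact Or.inr fun u hu => h u ((hw n).trans hu)

theorem measurable_g (k : ℕ) : Measurable fun x : ℕ → Bool => g x k :=
  (Pool.Agent.W885.TD.measurable_G k).add_const k

end Pool.Agent.TH774.TD
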